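import Pool.Agent.Hhelper93.CLow3.Main

/-!
# Two edges have at most two common points
-/

set_option autoImplicit false

namespace Pool.Agent.CLow3

open Set
open Pool.Agent.CMono Pool.Agent.CLow

/-- The next residue. -/
def nx (K r : ℕ) : ℕ := if r + 1 = per K then 0 else r + 1

/-- Two edges have the same order at a residue and at the next one. -/
def Keep (K : ℕ) (e f : ℕ × ℕ) (r : ℕ) : Prop :=
  (hgt K e r < hgt K f r ∧ hgt K e (nx K r) < hgt K f (nx K r)) ∨
  (hgt K f r < hgt K e r ∧ hgt K f (nx K r) < hgt K e (nx K r))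

/-- The order of the edges in the base sector. -/
theorem seg_hgt {K a b c d x y : ℕ} (h : Ed K a b) (h' : Ed K c d)
    (hs : Seg K (a, b) (c, d) x y) {t : ℕ} (ht : t ≤ 2 * K + 3) :
    (x ≤ t ∧ t < y → hgt K (c, d) (2 * nn K + t) < hgt K (a, b) (2 * nn K + t)) ∧
    (¬ (x ≤ t ∧ t < y) → hgt K (a, b) (2 * nn K + t) < hgt K (c, d) (2 * nn K + t)) := by
  by_cases hi : t ≤ K + 1
  · obtain ⟨h1, h2⟩ := hs.1 t hi
    exact ⟨fun hh => hgt_D_lt (e := (c, d)) (f := (a, b)) h' hi (h1 hh),
      fun hh => hgt_D_lt (e := (a, b)) (f := (c, d)) h hi (h2 hh)⟩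
  · obtain ⟨h1, h2⟩ := hs.2 (2 * K + 3 - t) (by omega)
    have h3 : 2 * K + 3 - (2 * K + 3 - t) = t := by omega
    have h4 : 2 * K + 3 - t ≤ K + 1 := by omega
    rw [h3] at h1 h2
    have h5 := fun hh => hgt_E_lt (e := (c, d)) (f := (a, b)) h' h4 (h1 hh)
    have h6 := fun hh => hgt_E_lt (e := (a, b)) (f := (c, d)) h h4 (h2 hh)
    rw [h3] at h5 h6
    exact ⟨h5, h6⟩

/-- The order of two edges changes at two places at most. -/
theorem changes {K a b c d : ℕ} (h : Ed K a b) (h' : Ed K c d) (hac : a < c) (hbd : b ≠ d) :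
    ∃ r1 r2 : ℕ, ∀ r < per K, r ≠ r1 → r ≠ r2 → (2 * b ≤ r ∨ r ≤ 2 * a) →
      (2 * d ≤ r ∨ r ≤ 2 * c) → Keep K (a, b) (c, d) r := by
  have hb : b < nn K := h.lt'
  have hd : d < nn K := h'.lt'
  have hab := h.lt
  have hcd := h'.lt
  obtain ⟨k, hkK, hk⟩ := lv_of_ed h
  obtain ⟨l, hlK, hl⟩ := lv_of_ed h'
  have key1 := key_lt (K := K) (e := (a, b)) h
  have key2 := key_lt (K := K) (e := (c, d)) h'
  have yek1 := yek_lt h
  have yek2 := yek_lt h'
  obtain ⟨-, kc1, kc2⟩ := key_col h hac
  have kc3 : nn K * c ≤ key K (c, d) := Nat.le_add_right _ _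
  have kc4 : nn K * a ≤ key K (a, b) := Nat.le_add_right _ _
  -- the base sector
  have hex : ∃ x y, Seg K (a, b) (c, d) x y ∧ (b ≤ c → x = 0 ∧ y = 0) := by
    by_cases hbc : b ≤ c
    · exact ⟨0, 0, seg_far hk hl hb hd hbc, fun _ => ⟨rfl, rfl⟩⟩
    · rcases lt_or_gt_of_ne hbd with h1 | h1
      · obtain ⟨x, y, hxy⟩ := seg_over hk hl hb hd hkK hlK hac (by omega) h1
        exact ⟨x, y, hxy, fun hh => absurd hh hbc⟩
      · obtain ⟨x, y, hxy⟩ := seg_nest hk hl hb hd hkK hac h1
        exact ⟨x, y, hxy, fun hh => absurd hh hbc⟩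
  obtain ⟨x, y, hxy, hfar⟩ := hex
  refine ⟨if b ≤ c then 2 * b else 2 * nn K + x - 1, if b ≤ c then 2 * b else 2 * nn K + y - 1,
    fun r hr hr1 hr2 ha1 ha2 => ?_⟩
  have hper : per K = 2 * nn K + 2 * (K + 2) := rfl
  by_cases hv : r + 1 < 2 * nn K
  · -- the vertices
    have hnx : nx K r = r + 1 := by unfold nx; rw [if_neg (by omega)]
    unfold Keep
    rw [hnx]
    by_cases hf : b ≤ c
    · rw [if_pos hf] at hr1
      have yr := yek_row (c := c) h (show b < d by omega)
      rcases ha1 with ha1 | ha1 <;> rcases ha2 with ha2 | ha2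
      · left
        unfold hgt
        dsimp only
        split_ifs <;> omega
      · left
        unfold hgt
        dsimp only
        split_ifs <;> omega
      · omega
      · left
        unfold hgt
        dsimp only
        split_ifs <;> omega
    · rcases ha1 with ha1 | ha1 <;> rcases ha2 with ha2 | ha2
      · rcases lt_or_gt_of_ne hbd with h1 | h1
        · have yr := yek_row (c := c) h h1
          left
          unfold hgt
          dsimp only
          split_ifs <;> omega
        · have yr := yek_row (c := a) h' h1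
          right
          unfold hgt
          dsimp only
          split_ifs <;> omega
      · omega
      · omega
      · left
        unfold hgt
        dsimp only
        split_ifs <;> omega
  · by_cases hv1 : r + 1 = 2 * nn K
    · -- the beginning of the base sector
      have hnx : nx K r = 2 * nn K + 0 := by unfold nx; rw [if_neg (by omega)]; omega
      unfold Keep
      rw [hnx]
      rcases lt_or_gt_of_ne hbd with h1 | h1
      · left
        refine ⟨?_, hgt_D_lt (e := (a, b)) (f := (c, d)) h (by omega) (PD_lt hk hb (by simpa))⟩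
        have yr := yek_row (c := c) h h1
        unfold hgt
        dsimp only
        split_ifs <;> omega
      · right
        refine ⟨?_, hgt_D_lt (e := (c, d)) (f := (a, b)) h' (by omega) (PD_lt hl hd (by simpa))⟩
        have yr := yek_row (c := a) h' h1
        unfold hgt
        dsimp only
        split_ifs <;> omega
    · by_cases hv2 : r + 1 = per K
      · -- the end of the base sector
        have hnx : nx K r = 0 := by unfold nx; rw [if_pos hv2]
        unfold Keep
        rw [hnx]
        left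
        constructor
        · have h1 := hgt_E_lt (K := K) (i := 0) (e := (a, b)) (f := (c, d)) h (by omega)
            (PE_lt hk hb (by simpa))
          rw [show 2 * nn K + (2 * K + 3 - 0) = r by omega] at h1
          exact h1
        · have hn := two_le K
          unfold hgt
          dsimp only
          split_ifs <;> omega
      · -- inside the base sector
        have hnx : nx K r = 2 * nn K + (r - 2 * nn K + 1) := by
          unfold nx; rw [if_neg hv2]; omega
        have hrr : r = 2 * nn K + (r - 2 * nn K) := by omega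
        obtain ⟨g1, g2⟩ := seg_hgt h h' hxy (t := r - 2 * nn K) (by omega)
        obtain ⟨g3, g4⟩ := seg_hgt h h' hxy (t := r - 2 * nn K + 1) (by omega)
        rw [← hrr] at g1 g2
        rw [← hnx] at g3 g4
        unfold Keep
        by_cases hin : x ≤ r - 2 * nn K ∧ r - 2 * nn K < y
        · right
          refine ⟨g1 hin, g3 ?_⟩
          have hbc : ¬ b ≤ c := fun hh => by have := hfar hh; omega
          rw [if_neg hbc] at hr2
          omega
        · left
          refine ⟨g2 hin, g4 ?_⟩
          by_cases hbc : b ≤ c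
          · have := hfar hbc
            omega
          · rw [if_neg hbc] at hr1 hr2
            omega

/-- The residues of an integer and of the next one. -/
theorem nd_pair (K : ℕ) {j : ℤ} (h0 : 0 ≤ j) (h1 : j < 2 * (per K : ℤ)) :
    ∃ r : ℕ, r < per K ∧ (j = r ∨ j = r + per K) ∧
      ∀ e, nd K e j = val K e r ∧ nd K e (j + 1) = val K e (nx K r) := by
  obtain ⟨r, hr1, hr2, hr3⟩ := nd_res K h0 h1
  have hp := per_pos K
  refine ⟨r, hr1, hr2, fun e => ⟨hr3 e, ?_⟩⟩
  by_cases hn : r + 1 = per K
  · have hnx : nx K r = 0 := by unfold nx; rw [if_pos hn]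
    have e0 : nd K e ((0 : ℕ) : ℤ) = val K e 0 := nd_nat K e hp
    have e1 : nd K e (per K : ℤ) = nd K e ((0 : ℕ) : ℤ) := by
      rw [← nd_period K e ((0 : ℕ) : ℤ)]
      congr 1
      push_cast
      ring
    have e2 : nd K e ((per K : ℤ) + per K) = nd K e (per K : ℤ) := nd_period K e _
    rw [hnx]
    rcases hr2 with h2 | h2
    · rw [show j + 1 = (per K : ℤ) by omega, e1, e0]
    · rw [show j + 1 = (per K : ℤ) + per K by omega, e2, e1, e0]
  · have hnx : nx K r = r + 1 := by unfold nx; rw [if_neg hn]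
    rw [hnx]
    rcases hr2 with h2 | h2
    · rw [show j + 1 = ((r + 1 : ℕ) : ℤ) by omega]
      exact nd_nat K e (by omega)
    · rw [show j + 1 = ((r + 1 : ℕ) : ℤ) + per K by omega]
      exact nd_nat' K e (by omega)

/-- The common points whose parameter lies between a node with the residue `r` and the next. -/
def Com (K a b c d r : ℕ) : Set ℂ :=
  {z | ∃ (u : ℝ) (m : ℤ), 2 * (b : ℤ) ≤ m ∧ m + 1 ≤ 2 * (a : ℤ) + 1 + per K ∧
    (m = r ∨ m = r + per K) ∧ u ∈ Icc (m : ℝ) (m + 1) ∧
    pl (nd K (a, b)) u = pl (nd K (c, d)) u ∧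
    z = (0 : ℂ) + (rho K (a, b) (ang K u) : ℂ) * Complex.exp ((ang K u : ℝ) * Complex.I)}

/-- There is one such point at most. -/
theorem com_sub {K a b c d : ℕ} (h : Ed K a b) (h' : Ed K c d) (hac : a < c) (hbd : b ≠ d)
    (r : ℕ) : (Com K a b c d r).Subsingleton := by
  have hab := h.lt
  rintro z ⟨u, m, h1, h2, h3, h4, h5, rfl⟩ z' ⟨u', m', h1', h2', h3', h4', h5', rfl⟩
  have hmm : m = m' := by omega
  subst hmm
  rw [pl_eq _ m h4, pl_eq _ m h4] at h5
  rw [pl_eq _ m h4', pl_eq _ m h4'] at h5'
  set α := nd K (a, b) m - nd K (c, d) m with hα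
  set β := nd K (a, b) (m + 1) - nd K (c, d) (m + 1) with hβ
  have e1 : α + (β - α) * (u - m) = 0 := by rw [hα, hβ]; linarith
  have e2 : α + (β - α) * (u' - m) = 0 := by rw [hα, hβ]; linarith
  have hne0 : β - α ≠ 0 := by
    intro hh
    rw [hh] at e1
    have ha0 : α = 0 := by linarith
    have hne : (a, b) ≠ (c, d) := by
      intro hh
      rw [Prod.mk.injEq] at hh
      omega
    rcases node_ne h h' hne (j := m) h1 (by omega) (by linarith) with ⟨n1, -⟩ | ⟨n1, -⟩
    · exact hbd n1
    · omega
  have e3 : (β - α) * (u - u') = 0 := by linarith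
  have e4 : u = u' := by
    rcases mul_eq_zero.1 e3 with e5 | e5
    · exact absurd e5 hne0
    · linarith
  rw [e4]

/-- Two edges without a common end have at most two common points. -/
theorem inter_far {K a b c d : ℕ} (h : Ed K a b) (h' : Ed K c d) (hac : a < c) (hbd : b ≠ d) :
    (Arc K (a, b) ∩ Arc K (c, d)).ncard ≤ 2 := by
  have hb : b < nn K := h.lt'
  have hd : d < nn K := h'.lt'
  have hab := h.lt
  have hcd := h'.lt
  have hp := nn_lt_per K
  have hne : (a, b) ≠ (c, d) := by
    intro hh
    rw [Prod.mk.injEq] at hh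
    omega
  obtain ⟨r1, r2, H⟩ := changes h h' hac hbd
  have hsub : Arc K (a, b) ∩ Arc K (c, d) ⊆ Com K a b c d r1 ∪ Com K a b c d r2 := by
    rintro z ⟨⟨s, hs, rfl⟩, hz'⟩
    obtain ⟨u, rfl⟩ := exists_ang K s
    simp only [Set.mem_Icc, ang_le] at hs
    obtain ⟨k, hk1, hk2, hpl⟩ := common hz'
    set m := ⌊u⌋ with hm
    have hm2 : (m : ℝ) ≤ u := Int.floor_le u
    have hm3 : u < m + 1 := Int.lt_floor_add_one u
    rcases hm2.lt_or_eq with hlt | heq
    swap
    · exfalso
      rw [← heq] at hpl hs
      have g1 : 2 * (b : ℤ) ≤ m := by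
        have := hs.1
        exact_mod_cast this
      have g2 : m ≤ 2 * (a : ℤ) + 1 + per K := by
        have := hs.2
        exact_mod_cast this
      rw [pl_int, pl_int] at hpl
      rcases node_ne h h' hne g1 g2 hpl with ⟨n1, -⟩ | ⟨n1, -⟩
      · exact hbd n1
      · omega
    · obtain ⟨g1, g2⟩ := unit_bounds (x := 2 * (b : ℤ)) (y := 2 * (a : ℤ) + 1 + per K)
        (by push_cast; exact hs.1) (by push_cast; exact hs.2) hlt
      rw [← hm] at g1 g2
      obtain ⟨g3, g4⟩ := unit_bounds (u := u) (x := 2 * (d : ℤ) - k * per K)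
        (y := 2 * (c : ℤ) + 1 + per K - k * per K)
        (by push_cast; linarith) (by push_cast; linarith) hlt
      rw [← hm] at g3 g4
      have hu : u ∈ Icc (m : ℝ) (m + 1) := ⟨hm2, hm3.le⟩
      obtain ⟨r, hr1, hr2, hr3⟩ := nd_pair K (j := m) (by omega) (by omega)
      by_cases hc1 : r = r1
      · left
        rw [← hc1]
        exact ⟨u, m, g1, g2, hr2, hu, hpl, rfl⟩
      by_cases hc2 : r = r2
      · right
        rw [← hc2]
        exact ⟨u, m, g1, g2, hr2, hu, hpl, rfl⟩
      exfalso
      have hk : k = 0 ∨ k = 1 ∨ k = -1 := by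
        have k1 : k < 2 := by
          by_contra hc
          have : 2 * (per K : ℤ) ≤ k * per K :=
            Int.mul_le_mul_of_nonneg_right (by omega) (by omega)
          omega
        have k2 : -2 < k := by
          by_contra hc
          have : k * (per K : ℤ) ≤ -2 * per K :=
            Int.mul_le_mul_of_nonneg_right (by omega) (by omega)
          omega
        omega
      have hkeep := H r hr1 hc1 hc2 (by omega) (by
        rcases hk with rfl | rfl | rfl <;> omega)
      rw [pl_eq _ m hu, pl_eq _ m hu, (hr3 _).1, (hr3 _).1, (hr3 _).2, (hr3 _).2] at hpl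
      have t0 : 0 < u - m := by linarith
      have t1 : 0 < 1 - (u - m) := by linarith
      rcases hkeep with ⟨q1, q2⟩ | ⟨q1, q2⟩
      · have w1 : (val K (a, b) r : ℝ) < val K (c, d) r := by exact_mod_cast val_lt q1
        have w2 : (val K (a, b) (nx K r) : ℝ) < val K (c, d) (nx K r) := by
          exact_mod_cast val_lt q2
        nlinarith [mul_pos t1 (sub_pos.2 w1), mul_pos t0 (sub_pos.2 w2)]
      · have w1 : (val K (c, d) r : ℝ) < val K (a, b) r := by exact_mod_cast val_lt q1
        have w2 : (val K (c, d) (nx K r) : ℝ) < val K (a, b) (nx K r) := by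
          exact_mod_cast val_lt q2
        nlinarith [mul_pos t1 (sub_pos.2 w1), mul_pos t0 (sub_pos.2 w2)]
  have hone : ∀ r, (Com K a b c d r).ncard ≤ 1 ∧ (Com K a b c d r).Finite := by
    intro r
    have hs := com_sub h h' hac hbd r
    refine ⟨?_, hs.finite⟩
    rcases hs.eq_empty_or_singleton with h0 | ⟨z, h0⟩
    · rw [h0, Set.ncard_empty]; omega
    · rw [h0, Set.ncard_singleton]
  calc (Arc K (a, b) ∩ Arc K (c, d)).ncard ≤ (Com K a b c d r1 ∪ Com K a b c d r2).ncard :=
        Set.ncard_le_ncard hsub ((hone r1).2.union (hone r2).2)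
    _ ≤ (Com K a b c d r1).ncard + (Com K a b c d r2).ncard := Set.ncard_union_le _ _
    _ ≤ 2 := by have := (hone r1).1; have := (hone r2).1; omega

/-- Two edges have at most two common points. -/
theorem inter_two {K a b c d : ℕ} (h : Ed K a b) (h' : Ed K c d) (hne : (a, b) ≠ (c, d)) :
    (Arc K (a, b) ∩ Arc K (c, d)).ncard ≤ 2 := by
  have hsing : ∀ (S : Set ℂ) (p : ℂ), (∀ z ∈ S, z = p) → S.ncard ≤ 2 := by
    intro S p hp
    have h1 : S ⊆ {p} := fun z hz => hp z hz
    have h2 := Set.ncard_le_ncard h1 (Set.finite_singleton p)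
    rw [Set.ncard_singleton] at h2
    omega
  rcases lt_trichotomy a c with hac | rfl | hac
  · by_cases hbd : b = d
    · subst hbd
      exact hsing _ _ fun z hz => arc_col h h' hac hz.1 hz.2
    · exact inter_far h h' hac hbd
  · rcases lt_trichotomy b d with hbd | rfl | hbd
    · exact hsing _ _ fun z hz => arc_row h h' hbd hz.1 hz.2
    · exact absurd rfl hne
    · exact hsing _ _ fun z hz => arc_row h' h hbd hz.2 hz.1
  · by_cases hbd : b = d
    · subst hbd
      exact hsing _ _ fun z hz => arc_col h' h hac hz.2 hz.1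
    · rw [Set.inter_comm]
      exact inter_far h' h hac (Ne.symm hbd)

end Pool.Agent.CLow3
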