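import Pool.Agent.Hhelper93.CLow.Comb

/-!
# Levels of the edges of the ordered hypercube
-/

set_option autoImplicit false

namespace Pool.Agent.CLow3

open Pool.Agent.CLow

/-- The pair `(a, b)` is an edge of the level `k`. -/
def Lv (a b k : ℕ) : Prop := b = a + 2 ^ k ∧ a / 2 ^ k % 2 = 0

theorem lv_of_ed {K a b : ℕ} (h : Ed K a b) : ∃ k, k ≤ K ∧ Lv a b k := by
  obtain ⟨k, q, r, hk, hr, ha, hb, -⟩ := h.data
  refine ⟨k, hk, by omega, ?_⟩
  rw [ha, div_low hr]
  omega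

namespace Lv

variable {a b c d k l i : ℕ}

theorem lt (h : Lv a b k) : a < b := by
  have : 0 < 2 ^ k := by positivity
  have := h.1
  omega

theorem low (h : Lv a b k) : b / 2 ^ k = a / 2 ^ k + 1 := by
  rw [h.1]
  exact Nat.add_div_right _ (by positivity)

theorem out (h : Lv a b k) (hi : i ≤ k) : a / 2 ^ i < b / 2 ^ i := by
  obtain ⟨m, rfl⟩ := Nat.exists_eq_add_of_le hi
  have h1 : b = a + 2 ^ i * 2 ^ m := by rw [← pow_add]; exact h.1
  rw [h1, Nat.add_mul_div_left _ _ (by positivity)]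
  have : 0 < 2 ^ m := by positivity
  omega

theorem inn (h : Lv a b k) (hi : k < i) : a / 2 ^ i = b / 2 ^ i := by
  have h1 : a / 2 ^ (k + 1) = b / 2 ^ (k + 1) := by
    rw [pow_succ, ← Nat.div_div_eq_div_mul, ← Nat.div_div_eq_div_mul, h.low]
    have := h.2
    omega
  exact div_eq_of hi h1

end Lv

/-- The middle of an edge. -/
def mid (e : ℕ × ℕ) : ℕ := (e.2 - e.1) * (e.2 / (e.2 - e.1))

/-- The distance of an edge from its middle. -/
def rem (e : ℕ × ℕ) : ℕ := e.1 % (e.2 - e.1)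

namespace Lv

variable {a b c d k l i : ℕ}

theorem mid_eq (h : Lv a b k) : mid (a, b) = 2 ^ k * (a / 2 ^ k + 1) := by
  have h1 : b - a = 2 ^ k := by rw [h.1]; exact Nat.add_sub_cancel_left _ _
  simp only [mid]
  rw [h1, h.low]

theorem rem_eq (h : Lv a b k) : rem (a, b) = a % 2 ^ k := by
  have h1 : b - a = 2 ^ k := by rw [h.1]; exact Nat.add_sub_cancel_left _ _
  simp only [rem]
  rw [h1]

theorem lt_mid (h : Lv a b k) : a < mid (a, b) := by
  rw [h.mid_eq, mul_add, mul_one]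
  have h1 := Nat.div_add_mod a (2 ^ k)
  have h2 : a % 2 ^ k < 2 ^ k := Nat.mod_lt _ (by positivity)
  omega

theorem mid_le (h : Lv a b k) : mid (a, b) ≤ b := by
  rw [h.mid_eq, ← h.low]
  exact Nat.mul_div_le _ _

theorem rem_le (h : Lv a b k) : rem (a, b) ≤ a := by
  rw [h.rem_eq]
  exact Nat.mod_le _ _

theorem lt_next (x i : ℕ) : x < 2 ^ i * (x / 2 ^ i + 1) := by
  rw [mul_add, mul_one]
  have h1 := Nat.div_add_mod x (2 ^ i)
  have h2 : x % 2 ^ i < 2 ^ i := Nat.mod_lt _ (by positivity)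
  omega

/-- The middles, first case. -/
theorem mid_ge (h : Lv a b k) (h' : Lv c d l) (hac : a < c) (hl : l ≤ k)
    (he : a / 2 ^ k = c / 2 ^ k) : mid (c, d) < mid (a, b) ∨
      (mid (c, d) = mid (a, b) ∧ rem (a, b) < rem (c, d)) := by
  rcases hl.lt_or_eq with hl | hl
  · left
    have h1 := h'.inn hl
    have h2 := lt_next d k
    have h3 := h'.mid_le
    rw [h.mid_eq, he, h1]
    omega
  · right
    subst hl
    rw [h.mid_eq, h'.mid_eq, h.rem_eq, h'.rem_eq, he]
    refine ⟨rfl, ?_⟩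
    have h1 := Nat.div_add_mod a (2 ^ l)
    have h2 := Nat.div_add_mod c (2 ^ l)
    rw [he] at h1
    omega

/-- The middles, second case. -/
theorem mid_lt (h : Lv a b k) (h' : Lv c d l) (hac : a < c)
    (hn : ¬ (l ≤ k ∧ a / 2 ^ k = c / 2 ^ k)) : mid (a, b) < mid (c, d) := by
  by_cases hl : l ≤ k
  · have h1 : a / 2 ^ k ≤ c / 2 ^ k := Nat.div_le_div_right hac.le
    have h2 : a / 2 ^ k ≠ c / 2 ^ k := fun hh => hn ⟨hl, hh⟩
    have h3 : 2 ^ k * (a / 2 ^ k + 1) ≤ 2 ^ k * (c / 2 ^ k) := Nat.mul_le_mul_left _ (by omega)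
    have h4 : 2 ^ k * (c / 2 ^ k) ≤ c := Nat.mul_div_le _ _
    have h5 := h'.lt_mid
    rw [h.mid_eq]
    omega
  · have h1 := h.inn (i := l) (by omega)
    have h2 := lt_next b l
    have h3 := h.mid_le
    have h4 : a / 2 ^ l ≤ c / 2 ^ l := Nat.div_le_div_right hac.le
    have h5 : 2 ^ l * (b / 2 ^ l + 1) ≤ 2 ^ l * (c / 2 ^ l + 1) := Nat.mul_le_mul_left _ (by omega)
    rw [h'.mid_eq]
    omega

theorem lv_lt (h : Lv a b k) (h' : Lv a d l) (hbd : b < d) : k < l := by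
  have h1 := h.1
  have h2 := h'.1
  have h3 : 2 ^ k < 2 ^ l := by omega
  exact (Nat.pow_lt_pow_iff_right (by norm_num)).1 h3

theorem lv_gt (h : Lv a b k) (h' : Lv c b l) (hac : a < c) : l < k := by
  have h1 := h.1
  have h2 := h'.1
  have h3 : 2 ^ l < 2 ^ k := by omega
  exact (Nat.pow_lt_pow_iff_right (by norm_num)).1 h3

theorem mid_row (h : Lv a b k) (h' : Lv a d l) (hbd : b < d) : mid (a, b) < mid (a, d) := by
  have h1 := h.inn (h.lv_lt h' hbd)
  have h2 := lt_next b l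
  have h3 := h.mid_le
  rw [h'.mid_eq, h1]
  omega

theorem mid_col (h : Lv a b k) (h' : Lv c b l) (hac : a < c) : mid (a, b) < mid (c, b) := by
  refine h.mid_lt h' hac ?_
  rintro ⟨-, he⟩
  have h1 := h'.inn (h.lv_gt h' hac)
  have h2 := h.low
  omega

end Lv

/-- The highest different digit. -/
theorem top_bit {x y : ℕ} (h : x ≠ y) : ∃ m, ∀ i, x / 2 ^ i = y / 2 ^ i ↔ m < i := by
  classical
  have hex : ∃ i, x / 2 ^ i = y / 2 ^ i := by
    refine ⟨x + y, ?_⟩
    have h1 : x + y < 2 ^ (x + y) := Nat.lt_two_pow_self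
    rw [Nat.div_eq_of_lt (by omega), Nat.div_eq_of_lt (by omega)]
  have h0 : Nat.find hex ≠ 0 := by
    intro hh
    have := Nat.find_spec hex
    rw [hh] at this
    simp at this
    exact h this
  refine ⟨Nat.find hex - 1, fun i => ⟨fun hi => ?_, fun hi => ?_⟩⟩
  · have := Nat.find_min' hex hi
    omega
  · exact div_eq_of (k := Nat.find hex) (by omega) (Nat.find_spec hex)

end Pool.Agent.CLow3
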