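import Pool.Agent.Hhelper93.CLow3.Sign
import Pool.Agent.Hhelper93.CLow.PL

/-!
# The heights of the edges at the nodes

The order of the heights is given by `hgt`; the height itself is a power with the exponent `hgt`,
of `2` at the even nodes and of a large number at the odd nodes, so that no three edges meet in one
point.
-/

set_option autoImplicit false

namespace Pool.Agent.CLow3

open Set
open Pool.Agent.CLow

/-- The period. -/
def per (K : ℕ) : ℕ := 2 * nn K + 2 * (K + 2)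

/-- The key of an edge. -/
def key (K : ℕ) (e : ℕ × ℕ) : ℕ := nn K * e.1 + e.2

/-- The exponent of the height of the edge `e` at the node `r`. -/
def hgt (K : ℕ) (e : ℕ × ℕ) (r : ℕ) : ℕ :=
  if r < 2 * nn K then
    if r = 2 * e.2 then 2 * (nn K * nn K)
    else if r = 2 * e.1 + 1 then nn K * nn K + nn K * e.1
    else if r < 2 * e.1 + 1 then nn K * nn K + key K e
    else nn K * e.2 + e.1
  else if r < 2 * nn K + (K + 2) then PD K e (r - 2 * nn K) * (nn K * nn K) + key K e
  else PE K e (per K - 1 - r) * (nn K * nn K) + key K e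

theorem key_lt {K : ℕ} {e : ℕ × ℕ} (h : Ed K e.1 e.2) : key K e < nn K * nn K := by
  have h1 : e.2 < nn K := h.lt'
  have h2 := h.lt
  have h3 : nn K * (e.1 + 1) ≤ nn K * nn K := Nat.mul_le_mul_left _ (by omega)
  rw [key]
  rw [mul_add] at h3
  omega

/-- The key by columns. -/
theorem yek_lt {K a b : ℕ} (h : Ed K a b) : nn K * b + a < nn K * nn K := by
  have h1 : b < nn K := h.lt'
  have h2 := h.lt
  have h3 : nn K * (b + 1) ≤ nn K * nn K := Nat.mul_le_mul_left _ (by omega)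
  rw [mul_add] at h3
  omega

/-- The bound of the heights. -/
def top (K : ℕ) : ℕ := nn K * (2 * (nn K * nn K)) * (nn K * nn K)

theorem top_ge (K : ℕ) : 2 * (nn K * nn K) < top K := by
  have h1 := two_le K
  have h2 : 0 < nn K * nn K := Nat.mul_pos (by omega) (by omega)
  have h4 : 2 * 2 ≤ nn K * nn K := Nat.mul_le_mul h1 h1
  have h5 : 2 * (2 * (nn K * nn K)) ≤ nn K * (2 * (nn K * nn K)) := Nat.mul_le_mul_right _ h1
  have h6 : 2 * (2 * (nn K * nn K)) * (2 * 2) ≤ top K := Nat.mul_le_mul h5 h4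
  omega

theorem hgt_lt {K : ℕ} {e : ℕ × ℕ} (h : Ed K e.1 e.2) (r : ℕ) : hgt K e r < top K := by
  obtain ⟨a, b⟩ := e
  simp only at h
  have h0 := two_le K
  have h1 : b < nn K := h.lt'
  have h2 := h.lt
  have h3 := key_lt (K := K) (e := (a, b)) h
  have h3' := yek_lt h
  have h4 : nn K * a ≤ nn K * nn K := Nat.mul_le_mul_left _ (by omega)
  have h5 := top_ge K
  obtain ⟨k, -, hk⟩ := lv_of_ed h
  have h6 : ∀ i, PD K (a, b) i * (nn K * nn K) + key K (a, b) < top K := by
    intro i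
    refine lex (W := nn K * nn K) (Q' := 0) h3 ?_
    refine lex (W := 2 * (nn K * nn K)) (Q' := 0) (QD_lt hk h1) ?_
    exact (Nat.div_le_self _ _).trans_lt h1
  have h7 : ∀ i, PE K (a, b) i * (nn K * nn K) + key K (a, b) < top K := by
    intro i
    refine lex (W := nn K * nn K) (Q' := 0) h3 ?_
    refine lex (W := 2 * (nn K * nn K)) (Q' := 0) (QE_lt hk h1) ?_
    exact (Nat.div_le_self _ _).trans_lt (by simp only; omega)
  have h8 := h6 (r - 2 * nn K)
  have h9 := h7 (per K - 1 - r)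
  unfold hgt
  dsimp only
  split_ifs <;> omega

theorem hgt_D {K i : ℕ} (e : ℕ × ℕ) (hi : i ≤ K + 1) :
    hgt K e (2 * nn K + i) = PD K e i * (nn K * nn K) + key K e := by
  unfold hgt
  rw [if_neg (by omega), if_pos (by omega), Nat.add_sub_cancel_left]

theorem hgt_E {K i : ℕ} (e : ℕ × ℕ) (hi : i ≤ K + 1) :
    hgt K e (2 * nn K + (2 * K + 3 - i)) = PE K e i * (nn K * nn K) + key K e := by
  unfold hgt
  rw [if_neg (by omega), if_neg (by omega)]
  rw [show per K - 1 - (2 * nn K + (2 * K + 3 - i)) = i by unfold per; omega]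

theorem hgt_D_lt {K i : ℕ} {e f : ℕ × ℕ} (h : Ed K e.1 e.2) (hi : i ≤ K + 1)
    (hp : PD K e i < PD K f i) : hgt K e (2 * nn K + i) < hgt K f (2 * nn K + i) := by
  rw [hgt_D e hi, hgt_D f hi]
  exact lex (key_lt h) hp

theorem hgt_E_lt {K i : ℕ} {e f : ℕ × ℕ} (h : Ed K e.1 e.2) (hi : i ≤ K + 1)
    (hp : PE K e i < PE K f i) :
    hgt K e (2 * nn K + (2 * K + 3 - i)) < hgt K f (2 * nn K + (2 * K + 3 - i)) := by
  rw [hgt_E e hi, hgt_E f hi]
  exact lex (key_lt h) hp

theorem key_row {K a b b' : ℕ} (h : b < b') : key K (a, b) < key K (a, b') := by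
  simp only [key]; omega

theorem key_col {K a a' b : ℕ} (h : Ed K a b) (h' : a < a') :
    nn K * a + b < nn K * a' ∧ key K (a, b) < nn K * a' ∧ key K (a, b) < key K (a', b) := by
  have h1 : b < nn K := h.lt'
  have h3 : nn K * (a + 1) ≤ nn K * a' := Nat.mul_le_mul_left _ (by omega)
  simp only [key]
  rw [mul_add] at h3
  refine ⟨?_, ?_, ?_⟩ <;> omega

/-- The keys by columns. -/
theorem yek_row {K a b d c : ℕ} (h : Ed K a b) (hbd : b < d) :
    nn K * b + a < nn K * d + c := by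
  have h1 : b < nn K := h.lt'
  have h2 := h.lt
  have h3 : nn K * (b + 1) ≤ nn K * d := Nat.mul_le_mul_left _ (by omega)
  rw [mul_add] at h3
  omega

theorem hgt_row {K a b b' : ℕ} (h : Ed K a b) (h' : Ed K a b') (hb : b < b') {r : ℕ}
    (hr : 2 * b' ≤ r ∨ r ≤ 2 * a + 1) (hr1 : r ≠ 2 * a + 1) :
    hgt K (a, b) r < hgt K (a, b') r := by
  have h1 : b < nn K := h.lt'
  have h1' : b' < nn K := h'.lt'
  have h2 := h.lt
  have h3 := key_row (K := K) (a := a) hb
  have h4 := key_lt (K := K) (e := (a, b)) h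
  have h5 := yek_lt h
  have h6 := yek_row (c := a) h hb
  obtain ⟨k, -, hk⟩ := lv_of_ed h
  obtain ⟨l, -, hl⟩ := lv_of_ed h'
  have g1 := Nat.mul_le_mul_right (nn K * nn K)
    (row (K := K) (i := r - 2 * nn K) hk hl h1 h1' hb).1
  have g2 := Nat.mul_le_mul_right (nn K * nn K)
    (row (K := K) (i := per K - 1 - r) hk hl h1 h1' hb).2
  unfold hgt
  dsimp only
  split_ifs <;> omega

theorem hgt_col {K a a' b : ℕ} (h : Ed K a b) (h' : Ed K a' b) (ha : a < a') {r : ℕ}
    (hr : 2 * b ≤ r ∨ r ≤ 2 * a + 1) (hr1 : r ≠ 2 * b) :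
    hgt K (a, b) r < hgt K (a', b) r := by
  have h1 : b < nn K := h.lt'
  have h2 := h.lt
  have h2' := h'.lt
  obtain ⟨-, h3, h3'⟩ := key_col h ha
  have h4 := key_lt (K := K) (e := (a, b)) h
  have h5 : nn K * a ≤ key K (a, b) := Nat.le_add_right _ _
  obtain ⟨k, -, hk⟩ := lv_of_ed h
  obtain ⟨l, -, hl⟩ := lv_of_ed h'
  have g1 := Nat.mul_le_mul_right (nn K * nn K)
    (col (K := K) (i := r - 2 * nn K) hk hl h1 ha).1
  have g2 := Nat.mul_le_mul_right (nn K * nn K)
    (col (K := K) (i := per K - 1 - r) hk hl h1 ha).2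
  unfold hgt
  dsimp only
  split_ifs <;> omega

theorem hgt_right {K a b : ℕ} (h : Ed K a b) : hgt K (a, b) (2 * b) = 2 * (nn K * nn K) := by
  have h1 : b < nn K := h.lt'
  unfold hgt
  dsimp only
  rw [if_pos (by omega), if_pos rfl]

theorem hgt_left {K a b : ℕ} (h : Ed K a b) :
    hgt K (a, b) (2 * a + 1) = nn K * nn K + nn K * a := by
  have h1 : b < nn K := h.lt'
  have h2 := h.lt
  unfold hgt
  dsimp only
  rw [if_pos (by omega), if_neg (by omega), if_pos rfl]

theorem key_unique {K x y z w : ℕ} (hy : y < nn K) (hw : w < nn K)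
    (he : nn K * x + y = nn K * z + w) : x = z ∧ y = w := by
  have e1 : x = z := by
    rcases lt_trichotomy x z with hh | hh | hh
    · have := Nat.mul_le_mul_left (nn K) (show x + 1 ≤ z from hh)
      rw [mul_add] at this; omega
    · exact hh
    · have := Nat.mul_le_mul_left (nn K) (show z + 1 ≤ x from hh)
      rw [mul_add] at this; omega
  subst e1
  exact ⟨rfl, by omega⟩

theorem mod_ne {N P P' x y : ℕ} (hx : x < N) (hy : y < N) (h : x ≠ y) :
    P * N + x ≠ P' * N + y := by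
  intro he
  have h1 : (P * N + x) % N = (P' * N + y) % N := congrArg (· % N) he
  rw [Nat.mul_add_mod_self_right, Nat.mul_add_mod_self_right, Nat.mod_eq_of_lt hx,
    Nat.mod_eq_of_lt hy] at h1
  exact h h1

/-- Different edges have different heights, except for a common vertex. -/
theorem hgt_ne {K a b c d : ℕ} (h : Ed K a b) (h' : Ed K c d) (hne : (a, b) ≠ (c, d)) {r : ℕ}
    (hb : ¬ (b = d ∧ r = 2 * b)) (ha : ¬ (a = c ∧ r = 2 * a + 1)) :
    hgt K (a, b) r ≠ hgt K (c, d) r := by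
  have h1 : b < nn K := h.lt'
  have h1' : d < nn K := h'.lt'
  have h2 := h.lt
  have h2' := h'.lt
  have h4 := key_lt (K := K) (e := (a, b)) h
  have h4' := key_lt (K := K) (e := (c, d)) h'
  have h5 := yek_lt h
  have h5' := yek_lt h'
  have hkey : key K (a, b) ≠ key K (c, d) := by
    intro he
    obtain ⟨e1, e2⟩ := key_unique (x := a) (z := c) h1 h1' he
    exact hne (by rw [e1, e2])
  have hyek : nn K * b + a ≠ nn K * d + c := by
    intro he
    obtain ⟨e1, e2⟩ := key_unique (x := b) (z := d) (by omega) (by omega) he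
    exact hne (by rw [e1, e2])
  have hka : key K (a, b) ≠ nn K * c := by
    intro he
    have := key_unique (K := K) (x := a) (y := b) (z := c) (w := 0) h1 (by omega)
      (by simpa [key] using he)
    omega
  have hkc : nn K * a ≠ key K (c, d) := by
    intro he
    have := key_unique (K := K) (x := a) (y := 0) (z := c) (w := d) (by omega) h1'
      (by simpa [key] using he)
    omega
  have hla : nn K * a ≤ key K (a, b) := Nat.le_add_right _ _
  have hlc : nn K * c ≤ key K (c, d) := Nat.le_add_right _ _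
  have g1 := mod_ne (P := PD K (a, b) (r - 2 * nn K)) (P' := PD K (c, d) (r - 2 * nn K)) h4 h4' hkey
  have g2 := mod_ne (P := PE K (a, b) (per K - 1 - r)) (P' := PE K (c, d) (per K - 1 - r)) h4 h4'
    hkey
  unfold hgt
  dsimp only
  split_ifs <;> omega

theorem hgt_pass {K b : ℕ} {e : ℕ × ℕ} (h' : Ed K e.1 e.2) (hb : b < nn K) (h : e.2 ≠ b) :
    hgt K e (2 * b) < 2 * (nn K * nn K) := by
  have h4 := key_lt h'
  have h5 := yek_lt h'
  unfold hgt
  rw [if_pos (by omega), if_neg (by omega), if_neg (by omega)]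
  split_ifs <;> omega

/-- A number which is larger than all heights at the even nodes. -/
def big (K : ℕ) : ℕ := 2 ^ top K

/-- The base of the powers. -/
def bs (K : ℕ) (r : ℕ) : ℕ := if r % 2 = 0 then 2 else big K + 1

theorem one_lt_bs (K r : ℕ) : 1 < bs K r := by
  have : 0 < big K := by unfold big; positivity
  unfold bs
  split_ifs <;> omega

/-- The height. -/
def val (K : ℕ) (e : ℕ × ℕ) (r : ℕ) : ℕ := bs K r ^ hgt K e r

theorem val_lt {K : ℕ} {e f : ℕ × ℕ} {r : ℕ} (h : hgt K e r < hgt K f r) :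
    val K e r < val K f r := Nat.pow_lt_pow_right (one_lt_bs K r) h

theorem val_eq {K : ℕ} {e f : ℕ × ℕ} {r : ℕ} (h : val K e r = val K f r) :
    hgt K e r = hgt K f r := Nat.pow_right_injective (one_lt_bs K r) h

theorem val_pos (K : ℕ) (e : ℕ × ℕ) (r : ℕ) : 0 < val K e r :=
  Nat.pow_pos (by have := one_lt_bs K r; omega)

/-- The heights at the even nodes are small. -/
theorem val_even {K : ℕ} {e : ℕ × ℕ} (h : Ed K e.1 e.2) {r : ℕ} (hr : r % 2 = 0) :
    val K e r < big K := by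
  unfold val bs big
  rw [if_pos hr]
  exact Nat.pow_lt_pow_right (by norm_num) (hgt_lt h r)

/-- The heights at the odd nodes are far from each other. -/
theorem val_odd {K : ℕ} {e f : ℕ × ℕ} {r : ℕ} (hr : r % 2 = 1) (h : val K e r < val K f r) :
    (big K + 1) * val K e r ≤ val K f r := by
  have hb : bs K r = big K + 1 := by unfold bs; rw [if_neg (by omega)]
  have h1 : hgt K e r < hgt K f r := (Nat.pow_lt_pow_iff_right (one_lt_bs K r)).1 h
  unfold val
  rw [hb, ← pow_succ']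
  exact Nat.pow_le_pow_right (by omega) h1

/-- The height at an integer, periodic. -/
noncomputable def nd (K : ℕ) (e : ℕ × ℕ) (j : ℤ) : ℝ := (val K e (j % (per K : ℤ)).toNat : ℝ)

theorem per_pos (K : ℕ) : 0 < per K := by unfold per; omega

theorem per_even (K : ℕ) : per K % 2 = 0 := by
  unfold per
  omega

theorem nd_period (K : ℕ) (e : ℕ × ℕ) (j : ℤ) : nd K e (j + (per K : ℤ)) = nd K e j := by
  unfold nd
  rw [Int.add_emod_right]

theorem nd_nat (K : ℕ) (e : ℕ × ℕ) {r : ℕ} (h : r < per K) : nd K e (r : ℤ) = val K e r := by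
  unfold nd
  rw [Int.emod_eq_of_lt (by omega) (by exact_mod_cast h), Int.toNat_natCast]

theorem nd_nat' (K : ℕ) (e : ℕ × ℕ) {r : ℕ} (h : r < per K) :
    nd K e ((r : ℤ) + (per K : ℤ)) = val K e r := by
  rw [nd_period, nd_nat K e h]

/-- The residue of an integer. -/
theorem nd_res (K : ℕ) {j : ℤ} (h0 : 0 ≤ j) (h1 : j < 2 * (per K : ℤ)) :
    ∃ r : ℕ, r < per K ∧ (j = r ∨ j = r + per K) ∧ ∀ e, nd K e j = val K e r := by
  have hp := per_pos K
  by_cases h : j < per K
  · refine ⟨j.toNat, by omega, Or.inl (by omega), fun e => ?_⟩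
    rw [← nd_nat K e (show j.toNat < per K by omega), Int.toNat_of_nonneg h0]
  · refine ⟨(j - per K).toNat, by omega, Or.inr (by omega), fun e => ?_⟩
    rw [← nd_nat' K e (show (j - per K).toNat < per K by omega),
      Int.toNat_of_nonneg (by omega)]
    congr 1
    ring

/-- Three lines are not concurrent. -/
theorem conc {x1 x2 x3 y1 y2 y3 B : ℕ} {s t : ℝ} (hs : 0 < s) (ht : 0 < t)
    (h12 : s * x1 + t * y1 = s * x2 + t * y2) (h23 : s * x2 + t * y2 = s * x3 + t * y3)
    (hy : y1 < y2) (hy' : y2 < y3) (hB : (B + 1) * y2 ≤ y3) (hx : x2 < B) : False := by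
  have hyR : (y1 : ℝ) + 1 ≤ y2 := by exact_mod_cast hy
  have hyR' : (y2 : ℝ) + 1 ≤ y3 := by exact_mod_cast hy'
  have e1 : s * ((x1 : ℝ) - x2) = t * ((y2 : ℝ) - y1) := by linarith
  have e2 : s * ((x2 : ℝ) - x3) = t * ((y3 : ℝ) - y2) := by linarith
  have p1 : 0 < (x1 : ℝ) - x2 := by
    have : 0 < s * ((x1 : ℝ) - x2) := by rw [e1]; exact mul_pos ht (by linarith)
    exact (mul_pos_iff_of_pos_left hs).1 this
  have p1' : x2 < x1 := by
    have : (x2 : ℝ) < x1 := by linarith
    exact_mod_cast this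
  have p1R : (x2 : ℝ) + 1 ≤ x1 := by exact_mod_cast p1'
  have e3 : ((x1 : ℝ) - x2) * ((y3 : ℝ) - y2) = ((x2 : ℝ) - x3) * ((y2 : ℝ) - y1) := by
    have h1 : (s * ((x1 : ℝ) - x2)) * (t * ((y3 : ℝ) - y2)) =
        (t * ((y2 : ℝ) - y1)) * (s * ((x2 : ℝ) - x3)) := by rw [e1, e2]
    have hst : s * t ≠ 0 := (mul_pos hs ht).ne'
    apply mul_left_cancel₀ hst
    linarith
  have hBR : ((B : ℝ) + 1) * y2 ≤ y3 := by exact_mod_cast hB
  have hxR : (x2 : ℝ) + 1 ≤ B := by exact_mod_cast hx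
  have hy1 : (0 : ℝ) ≤ y1 := Nat.cast_nonneg _
  have hx3 : (0 : ℝ) ≤ x3 := Nat.cast_nonneg _
  have g1 : (B : ℝ) * y2 ≤ ((x1 : ℝ) - x2) * ((y3 : ℝ) - y2) := by
    nlinarith
  have g2 : ((x2 : ℝ) - x3) * ((y2 : ℝ) - y1) ≤ (x2 : ℝ) * y2 := by
    have hx2 : (0 : ℝ) ≤ x2 := Nat.cast_nonneg _
    calc ((x2 : ℝ) - x3) * ((y2 : ℝ) - y1) ≤ (x2 : ℝ) * ((y2 : ℝ) - y1) :=
          mul_le_mul_of_nonneg_right (by linarith) (by linarith)
      _ ≤ (x2 : ℝ) * y2 := mul_le_mul_of_nonneg_left (by linarith) hx2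
  nlinarith

end Pool.Agent.CLow3
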