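import Pool.Agent.Hhelper93.CLow3.Level

/-!
# The order of the edges in the base sector
-/

set_option autoImplicit false

namespace Pool.Agent.CLow3

open Pool.Agent.CLow

/-- The number of vertices of one kind. -/
def nn (K : ℕ) : ℕ := 2 ^ (K + 1)

/-- The place of an edge inside a block, in the first half. -/
def QD (K : ℕ) (e : ℕ × ℕ) (i : ℕ) : ℕ :=
  if e.1 / 2 ^ i = e.2 / 2 ^ i then nn K + mid e * nn K + (nn K - 1 - rem e)
  else nn K - 1 - e.2 % 2 ^ i

/-- The place of an edge inside a block, in the second half. -/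
def QE (K : ℕ) (e : ℕ × ℕ) (i : ℕ) : ℕ :=
  if e.1 / 2 ^ i = e.2 / 2 ^ i then mid e * nn K + (nn K - 1 - rem e)
  else nn K * nn K + (nn K - 1 - e.1 % 2 ^ i)

/-- The place of an edge, in the first half. -/
def PD (K : ℕ) (e : ℕ × ℕ) (i : ℕ) : ℕ := e.2 / 2 ^ i * (2 * (nn K * nn K)) + QD K e i

/-- The place of an edge, in the second half. -/
def PE (K : ℕ) (e : ℕ × ℕ) (i : ℕ) : ℕ := e.1 / 2 ^ i * (2 * (nn K * nn K)) + QE K e i

theorem lex {W X Y Q Q' : ℕ} (hQ : Q < W) (h : X < Y) : X * W + Q < Y * W + Q' := by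
  have h1 : (X + 1) * W ≤ Y * W := Nat.mul_le_mul_right W h
  rw [add_mul, one_mul] at h1
  omega

section

variable {K a b c d k l i : ℕ}

theorem two_le (K : ℕ) : 2 ≤ nn K := by
  unfold nn
  rw [pow_succ]
  have : 0 < 2 ^ K := by positivity
  omega

theorem nn_le_sq (K : ℕ) : nn K + nn K ≤ nn K * nn K := by
  have := Nat.mul_le_mul_right (nn K) (two_le K)
  omega

theorem mid_bound (h : Lv a b k) (hb : b < nn K) :
    mid (a, b) * nn K + nn K ≤ nn K * nn K := by
  have h1 := h.mid_le
  have := Nat.mul_le_mul_right (nn K) (show mid (a, b) + 1 ≤ nn K by omega)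
  rw [add_mul, one_mul] at this
  exact this

theorem QD_lt (h : Lv a b k) (hb : b < nn K) : QD K (a, b) i < 2 * (nn K * nn K) := by
  have h1 := mid_bound h hb
  have h2 := nn_le_sq K
  have h3 := two_le K
  unfold QD
  split_ifs <;> omega

theorem QE_lt (h : Lv a b k) (hb : b < nn K) : QE K (a, b) i < 2 * (nn K * nn K) := by
  have h1 := mid_bound h hb
  have h2 := nn_le_sq K
  have h3 := two_le K
  unfold QE
  split_ifs <;> omega

theorem PD_lt (h : Lv a b k) (hb : b < nn K) (hbd : b / 2 ^ i < d / 2 ^ i) :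
    PD K (a, b) i < PD K (c, d) i := lex (QD_lt h hb) hbd

theorem PE_lt (h : Lv a b k) (hb : b < nn K) (hac : a / 2 ^ i < c / 2 ^ i) :
    PE K (a, b) i < PE K (c, d) i := lex (QE_lt h hb) hac

theorem PD_of (hbd : b / 2 ^ i = d / 2 ^ i) (hQ : QD K (a, b) i < QD K (c, d) i) :
    PD K (a, b) i < PD K (c, d) i := by
  simp only [PD, hbd]
  exact Nat.add_lt_add_left hQ _

theorem PE_of (hac : a / 2 ^ i = c / 2 ^ i) (hQ : QE K (a, b) i < QE K (c, d) i) :
    PE K (a, b) i < PE K (c, d) i := by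
  simp only [PE, hac]
  exact Nat.add_lt_add_left hQ _

theorem QD_inn (h : Lv a b k) (hi : k < i) :
    QD K (a, b) i = nn K + mid (a, b) * nn K + (nn K - 1 - rem (a, b)) := by
  unfold QD
  rw [if_pos (h.inn hi)]

theorem QD_out (h : Lv a b k) (hi : i ≤ k) : QD K (a, b) i = nn K - 1 - b % 2 ^ i := by
  unfold QD
  rw [if_neg (h.out hi).ne]

theorem QE_inn (h : Lv a b k) (hi : k < i) :
    QE K (a, b) i = mid (a, b) * nn K + (nn K - 1 - rem (a, b)) := by
  unfold QE
  rw [if_pos (h.inn hi)]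

theorem QE_out (h : Lv a b k) (hi : i ≤ k) :
    QE K (a, b) i = nn K * nn K + (nn K - 1 - a % 2 ^ i) := by
  unfold QE
  rw [if_neg (h.out hi).ne]

/-- The order of two middles. -/
theorem mid_ord {x y p q n : ℕ} (hp : p < n) (hq : q < n) (h : x < y ∨ (x = y ∧ q < p)) :
    x * n + (n - 1 - p) < y * n + (n - 1 - q) := by
  rcases h with h | ⟨rfl, h⟩
  · exact lex (by omega) h
  · omega

theorem rem_lt (h : Lv a b k) (hb : b < nn K) : rem (a, b) < nn K := by
  have := h.rem_le
  have := h.lt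
  omega

/-- The order at the node `i` of the second half. -/
theorem cmpE (he : Lv a b k) (hf : Lv c d l) (hb : b < nn K) (hd : d < nn K) (hac : a < c) :
    (a / 2 ^ i ≠ c / 2 ^ i → PE K (a, b) i < PE K (c, d) i) ∧
    (a / 2 ^ i = c / 2 ^ i → i ≤ k → PE K (c, d) i < PE K (a, b) i) ∧
    (a / 2 ^ i = c / 2 ^ i → k < i → l ≤ k → a / 2 ^ k = c / 2 ^ k →
      PE K (c, d) i < PE K (a, b) i) ∧
    (a / 2 ^ i = c / 2 ^ i → k < i → ¬ (l ≤ k ∧ a / 2 ^ k = c / 2 ^ k) →
      PE K (a, b) i < PE K (c, d) i) := by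
  have hab := he.lt
  have hcd := hf.lt
  have h1 := mid_bound he hb
  have h2 := mid_bound hf hd
  have h3 := two_le K
  have hle : a / 2 ^ i ≤ c / 2 ^ i := Nat.div_le_div_right hac.le
  refine ⟨fun hn => PE_lt he hb (by omega), fun hq hi => ?_, fun hq hi hl hq' => ?_,
    fun hq hi hn => ?_⟩
  · refine PE_of hq.symm ?_
    rw [QE_out he hi]
    by_cases hil : i ≤ l
    · rw [QE_out hf hil]
      have g1 := Nat.div_add_mod a (2 ^ i)
      have g2 := Nat.div_add_mod c (2 ^ i)
      have g3 := Nat.mod_le c (2 ^ i)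
      rw [hq] at g1
      omega
    · rw [QE_inn hf (by omega)]
      omega
  · refine PE_of hq.symm ?_
    rw [QE_inn he hi, QE_inn hf (by omega)]
    refine mid_ord (rem_lt hf hd) (rem_lt he hb) ?_
    exact he.mid_ge hf hac hl hq'
  · refine PE_of hq ?_
    rw [QE_inn he hi]
    by_cases hil : i ≤ l
    · rw [QE_out hf hil]
      omega
    · rw [QE_inn hf (by omega)]
      exact mid_ord (rem_lt he hb) (rem_lt hf hd) (Or.inl (he.mid_lt hf hac hn))

/-- The order at the node `i` of the first half. -/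
theorem cmpD (he : Lv a b k) (hf : Lv c d l) (hb : b < nn K) (hd : d < nn K) (hac : a < c) :
    (b / 2 ^ i < d / 2 ^ i → PD K (a, b) i < PD K (c, d) i) ∧
    (d / 2 ^ i < b / 2 ^ i → PD K (c, d) i < PD K (a, b) i) ∧
    (b / 2 ^ i = d / 2 ^ i → k < i → l < i → l ≤ k → a / 2 ^ k = c / 2 ^ k →
      PD K (c, d) i < PD K (a, b) i) ∧
    (b / 2 ^ i = d / 2 ^ i → k < i → l < i → ¬ (l ≤ k ∧ a / 2 ^ k = c / 2 ^ k) →
      PD K (a, b) i < PD K (c, d) i) ∧
    (b / 2 ^ i = d / 2 ^ i → i ≤ k → l < i → PD K (a, b) i < PD K (c, d) i) ∧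
    (b / 2 ^ i = d / 2 ^ i → k < i → i ≤ l → PD K (c, d) i < PD K (a, b) i) ∧
    (b / 2 ^ i = d / 2 ^ i → i ≤ k → i ≤ l → b < d → PD K (c, d) i < PD K (a, b) i) ∧
    (b / 2 ^ i = d / 2 ^ i → i ≤ k → i ≤ l → d < b → PD K (a, b) i < PD K (c, d) i) := by
  have hab := he.lt
  have hcd := hf.lt
  have h1 := mid_bound he hb
  have h2 := mid_bound hf hd
  have h3 := two_le K
  refine ⟨fun hn => PD_lt he hb hn, fun hn => PD_lt hf hd hn, fun hq hi hi' hl hq' => ?_,
    fun hq hi hi' hn => ?_, fun hq hi hi' => ?_, fun hq hi hi' => ?_, fun hq hi hi' hbd => ?_,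
    fun hq hi hi' hbd => ?_⟩
  · refine PD_of hq.symm ?_
    rw [QD_inn he hi, QD_inn hf hi']
    have := mid_ord (rem_lt hf hd) (rem_lt he hb) (he.mid_ge hf hac hl hq')
    omega
  · refine PD_of hq ?_
    rw [QD_inn he hi, QD_inn hf hi']
    have := mid_ord (rem_lt he hb) (rem_lt hf hd) (Or.inl (he.mid_lt hf hac hn))
    omega
  · refine PD_of hq ?_
    rw [QD_out he hi, QD_inn hf hi']
    omega
  · refine PD_of hq.symm ?_
    rw [QD_inn he hi, QD_out hf hi']
    omega
  · refine PD_of hq.symm ?_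
    rw [QD_out he hi, QD_out hf hi']
    have g1 := Nat.div_add_mod b (2 ^ i)
    have g2 := Nat.div_add_mod d (2 ^ i)
    have g3 := Nat.mod_le d (2 ^ i)
    rw [hq] at g1
    omega
  · refine PD_of hq ?_
    rw [QD_out he hi, QD_out hf hi']
    have g1 := Nat.div_add_mod b (2 ^ i)
    have g2 := Nat.div_add_mod d (2 ^ i)
    have g3 := Nat.mod_le b (2 ^ i)
    rw [hq] at g1
    omega

/-- Edges with a common left end. -/
theorem row (he : Lv a b k) (hf : Lv a d l) (hb : b < nn K) (hd : d < nn K) (hbd : b < d) :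
    PD K (a, b) i ≤ PD K (a, d) i ∧ PE K (a, b) i ≤ PE K (a, d) i := by
  have hkl := he.lv_lt hf hbd
  have hm := he.mid_row hf hbd
  have h1 := mid_bound he hb
  have h2 := mid_bound hf hd
  have h3 := two_le K
  constructor
  · rcases (Nat.div_le_div_right hbd.le : b / 2 ^ i ≤ d / 2 ^ i).lt_or_eq with hlt | heq
    · exact (PD_lt he hb hlt).le
    · have hli : l < i := by
        by_contra hc
        have g1 := hf.out (i := i) (by omega)
        by_cases hik : i ≤ k
        · have e1 : b / 2 ^ k < d / 2 ^ k := by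
            have e2 := he.low
            have e3 : 2 ^ k * 2 ≤ 2 ^ l := by
              rw [← pow_succ]
              exact Nat.pow_le_pow_right (by norm_num) hkl
            have e4 : a + 2 ^ k * 2 ≤ d := by have := hf.1; omega
            have e5 : (a + 2 ^ k * 2) / 2 ^ k ≤ d / 2 ^ k := Nat.div_le_div_right e4
            rw [Nat.add_mul_div_left _ _ (by positivity)] at e5
            omega
          exact e1.ne (div_eq_of hik heq)
        · have g2 := he.inn (i := i) (by omega)
          omega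
      refine (PD_of heq ?_).le
      rw [QD_inn he (by omega), QD_inn hf hli]
      have := mid_ord (rem_lt he hb) (rem_lt hf hd) (Or.inl hm)
      omega
  · have hQ : QE K (a, b) i ≤ QE K (a, d) i := by
      by_cases hik : i ≤ k
      · rw [QE_out he hik, QE_out hf (by omega)]
      · rw [QE_inn he (by omega)]
        by_cases hil : i ≤ l
        · rw [QE_out hf hil]
          omega
        · rw [QE_inn hf (by omega)]
          exact (mid_ord (rem_lt he hb) (rem_lt hf hd) (Or.inl hm)).le
    exact Nat.add_le_add_left hQ _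

/-- Edges with a common right end. -/
theorem col (he : Lv a b k) (hf : Lv c b l) (hb : b < nn K) (hac : a < c) :
    PD K (a, b) i ≤ PD K (c, b) i ∧ PE K (a, b) i ≤ PE K (c, b) i := by
  have hkl := he.lv_gt hf hac
  have hm := he.mid_col hf hac
  have h1 := mid_bound he hb
  have h2 := mid_bound hf hb
  have h3 := two_le K
  constructor
  · have hQ : QD K (a, b) i ≤ QD K (c, b) i := by
      by_cases hil : i ≤ l
      · rw [QD_out he (by omega), QD_out hf hil]
      · rw [QD_inn hf (by omega)]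
        by_cases hik : i ≤ k
        · rw [QD_out he hik]
          omega
        · rw [QD_inn he (by omega)]
          have := mid_ord (rem_lt he hb) (rem_lt hf hb) (Or.inl hm)
          omega
    exact Nat.add_le_add_left hQ _
  · rcases (Nat.div_le_div_right hac.le : a / 2 ^ i ≤ c / 2 ^ i).lt_or_eq with hlt | heq
    · exact (PE_lt he hb hlt).le
    · have hki : k < i := by
        by_contra hc
        have g0 := div_eq_of (l := k) (by omega) heq
        have g1 := hf.inn hkl
        have g2 := he.low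
        omega
      refine (PE_of heq ?_).le
      rw [QE_inn he hki, QE_inn hf (by omega)]
      exact mid_ord (rem_lt he hb) (rem_lt hf hb) (Or.inl hm)

end

end Pool.Agent.CLow3
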