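import Pool.Agent.Hhelper93.CLow3.Order

/-!
# The changes of the order in the base sector
-/

set_option autoImplicit false

namespace Pool.Agent.CLow3

open Pool.Agent.CLow

section

variable {K a b c d k l : ℕ}

/-- The order of two edges in the base sector: `(a, b)` is above `(c, d)` at the places
`x, ..., y - 1`. -/
def Seg (K : ℕ) (e f : ℕ × ℕ) (x y : ℕ) : Prop :=
  (∀ i ≤ K + 1, (x ≤ i ∧ i < y → PD K f i < PD K e i) ∧
    (¬ (x ≤ i ∧ i < y) → PD K e i < PD K f i)) ∧
  (∀ i ≤ K + 1, (x ≤ 2 * K + 3 - i ∧ 2 * K + 3 - i < y → PE K f i < PE K e i) ∧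
    (¬ (x ≤ 2 * K + 3 - i ∧ 2 * K + 3 - i < y) → PE K e i < PE K f i))

theorem top_le {x y m : ℕ} (hx : x < nn K) (hy : y < nn K)
    (h : ∀ i, x / 2 ^ i = y / 2 ^ i ↔ m < i) : m ≤ K := by
  have : m < K + 1 := (h (K + 1)).1 (by
    rw [Nat.div_eq_of_lt (by exact hx), Nat.div_eq_of_lt (by exact hy)])
  omega

/-- The type 1. -/
theorem seg_far (he : Lv a b k) (hf : Lv c d l) (hb : b < nn K) (hd : d < nn K) (hbc : b ≤ c) :
    Seg K (a, b) (c, d) 0 0 := by
  have hab := he.lt
  have hcd := hf.lt
  have hne : a / 2 ^ k ≠ c / 2 ^ k := by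
    have h1 := he.low
    have h2 : b / 2 ^ k ≤ c / 2 ^ k := Nat.div_le_div_right hbc
    omega
  constructor
  · intro i _
    refine ⟨fun h => by omega, fun _ => ?_⟩
    obtain ⟨c1, c2, c3, c4, c5, c6, c7, c8⟩ := cmpD (i := i) he hf hb hd (by omega)
    have h1 : b / 2 ^ i ≤ c / 2 ^ i := Nat.div_le_div_right hbc
    have h2 : c / 2 ^ i ≤ d / 2 ^ i := Nat.div_le_div_right hcd.le
    rcases (h1.trans h2).lt_or_eq with hlt | heq
    · exact c1 hlt
    · have hli : l < i := by
        by_contra hc
        have := hf.out (i := i) (by omega)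
        omega
      by_cases hik : i ≤ k
      · exact c5 heq hik hli
      · exact c4 heq (by omega) hli (fun hh => hne hh.2)
  · intro i _
    refine ⟨fun h => by omega, fun _ => ?_⟩
    obtain ⟨c1, c2, c3, c4⟩ := cmpE (i := i) he hf hb hd (by omega)
    by_cases heq : a / 2 ^ i = c / 2 ^ i
    · refine c4 heq ?_ (fun hh => hne hh.2)
      by_contra hc
      have h1 := he.out (i := i) (by omega)
      have h2 : b / 2 ^ i ≤ c / 2 ^ i := Nat.div_le_div_right hbc
      omega
    · exact c1 heq

/-- Nested edges. -/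
theorem seg_nest (he : Lv a b k) (hf : Lv c d l) (hb : b < nn K) (hd : d < nn K) (hkK : k ≤ K)
    (hac : a < c) (hdb : d < b) : ∃ x y, Seg K (a, b) (c, d) x y := by
  have hab := he.lt
  have hcd := hf.lt
  have hlk : l < k := by
    have h1 := he.1
    have h2 := hf.1
    have h3 : 2 ^ l < 2 ^ k := by omega
    exact (Nat.pow_lt_pow_iff_right (by norm_num)).1 h3
  obtain ⟨p, hp⟩ := top_bit hac.ne
  obtain ⟨q, hq⟩ := top_bit hdb.ne'
  have hpK := top_le (K := K) (by omega) (by omega) hp
  have hqK := top_le (K := K) (by omega) (by omega) hq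
  by_cases hpk : p < k
  · -- always above in the first half
    have hk1 : a / 2 ^ k = c / 2 ^ k := (hp k).2 hpk
    have hk2 := hf.inn hlk
    have hk3 := he.low
    refine ⟨0, 2 * K + 3 - p, ?_, ?_⟩
    · intro i hi
      refine ⟨fun _ => ?_, fun h => by omega⟩
      obtain ⟨c1, c2, c3, c4, c5, c6, c7, c8⟩ := cmpD (i := i) he hf hb hd hac
      have h1 : d / 2 ^ i ≤ b / 2 ^ i := Nat.div_le_div_right hdb.le
      rcases h1.lt_or_eq with hlt | heq
      · exact c2 hlt
      · have hki : k < i := by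
          by_contra hc
          have := div_eq_of (l := k) (by omega) heq
          omega
        exact c3 heq.symm hki (by omega) hlk.le hk1
    · intro i hi
      obtain ⟨c1, c2, c3, c4⟩ := cmpE (i := i) he hf hb hd hac
      refine ⟨fun h => ?_, fun h => ?_⟩
      · have heq : a / 2 ^ i = c / 2 ^ i := (hp i).2 (by omega)
        by_cases hik : i ≤ k
        · exact c2 heq hik
        · exact c3 heq (by omega) hlk.le hk1
      · exact c1 (fun hh => h (by have := (hp i).1 hh; omega))
  · have hne : a / 2 ^ k ≠ c / 2 ^ k := fun hh => hpk ((hp k).1 hh)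
    refine ⟨0, q + 1, ?_, ?_⟩
    · intro i hi
      obtain ⟨c1, c2, c3, c4, c5, c6, c7, c8⟩ := cmpD (i := i) he hf hb hd hac
      refine ⟨fun h => ?_, fun h => ?_⟩
      · have h1 : d / 2 ^ i ≤ b / 2 ^ i := Nat.div_le_div_right hdb.le
        have h2 : b / 2 ^ i ≠ d / 2 ^ i := fun hh => by have := (hq i).1 hh; omega
        exact c2 (by omega)
      · have heq : b / 2 ^ i = d / 2 ^ i := (hq i).2 (by omega)
        by_cases hik : i ≤ k
        · by_cases hil : i ≤ l
          · exact c8 heq hik hil hdb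
          · exact c5 heq hik (by omega)
        · exact c4 heq (by omega) (by omega) (fun hh => hne hh.2)
    · intro i hi
      obtain ⟨c1, c2, c3, c4⟩ := cmpE (i := i) he hf hb hd hac
      refine ⟨fun h => by omega, fun _ => ?_⟩
      by_cases heq : a / 2 ^ i = c / 2 ^ i
      · have := (hp i).1 heq
        exact c4 heq (by omega) (fun hh => hne hh.2)
      · exact c1 heq

/-- Overlapping edges. -/
theorem seg_over (he : Lv a b k) (hf : Lv c d l) (hb : b < nn K) (hd : d < nn K) (hkK : k ≤ K)
    (hlK : l ≤ K) (hac : a < c) (hcb : c < b) (hbd : b < d) :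
    ∃ x y, Seg K (a, b) (c, d) x y := by
  have hab := he.lt
  have hcd := hf.lt
  obtain ⟨p, hp⟩ := top_bit hac.ne
  obtain ⟨q, hq⟩ := top_bit hbd.ne
  have hpK := top_le (K := K) (by omega) (by omega) hp
  have hqK := top_le (K := K) (by omega) (by omega) hq
  rcases lt_trichotomy l k with hlk | hlk | hlk
  · -- `l < k`
    have hne : a / 2 ^ k ≠ c / 2 ^ k := by
      have h1 := hf.inn hlk
      have h2 := he.low
      have h3 : b / 2 ^ k ≤ d / 2 ^ k := Nat.div_le_div_right hbd.le
      omega
    have hpk : ¬ p < k := fun hh => hne ((hp k).2 hh)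
    refine ⟨q + 1, l + 1, ?_, ?_⟩
    · intro i hi
      obtain ⟨c1, c2, c3, c4, c5, c6, c7, c8⟩ := cmpD (i := i) he hf hb hd hac
      refine ⟨fun h => ?_, fun h => ?_⟩
      · exact c7 ((hq i).2 (by omega)) (by omega) (by omega) hbd
      · by_cases heq : b / 2 ^ i = d / 2 ^ i
        · have := (hq i).1 heq
          by_cases hik : i ≤ k
          · exact c5 heq hik (by omega)
          · exact c4 heq (by omega) (by omega) (fun hh => hne hh.2)
        · have h1 : b / 2 ^ i ≤ d / 2 ^ i := Nat.div_le_div_right hbd.le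
          exact c1 (by omega)
    · intro i hi
      obtain ⟨c1, c2, c3, c4⟩ := cmpE (i := i) he hf hb hd hac
      refine ⟨fun h => by omega, fun _ => ?_⟩
      by_cases heq : a / 2 ^ i = c / 2 ^ i
      · have := (hp i).1 heq
        exact c4 heq (by omega) (fun hh => hne hh.2)
      · exact c1 heq
  · -- `l = k`
    subst hlk
    have hk1 : a / 2 ^ l = c / 2 ^ l := by
      have h1 := he.low
      have h2 : a / 2 ^ l ≤ c / 2 ^ l := Nat.div_le_div_right hac.le
      have h3 : c / 2 ^ l ≤ b / 2 ^ l := Nat.div_le_div_right hcb.le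
      have h4 := he.2
      have h5 := hf.2
      omega
    have hpk : p < l := (hp l).1 hk1
    refine ⟨q + 1, 2 * K + 3 - p, ?_, ?_⟩
    · intro i hi
      obtain ⟨c1, c2, c3, c4, c5, c6, c7, c8⟩ := cmpD (i := i) he hf hb hd hac
      refine ⟨fun h => ?_, fun h => ?_⟩
      · have heq : b / 2 ^ i = d / 2 ^ i := (hq i).2 (by omega)
        by_cases hil : i ≤ l
        · exact c7 heq hil hil hbd
        · exact c3 heq (by omega) (by omega) le_rfl hk1
      · have h1 : b / 2 ^ i ≤ d / 2 ^ i := Nat.div_le_div_right hbd.le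
        have h2 : b / 2 ^ i ≠ d / 2 ^ i := fun hh => by have := (hq i).1 hh; omega
        exact c1 (by omega)
    · intro i hi
      obtain ⟨c1, c2, c3, c4⟩ := cmpE (i := i) he hf hb hd hac
      refine ⟨fun h => ?_, fun h => ?_⟩
      · have heq : a / 2 ^ i = c / 2 ^ i := (hp i).2 (by omega)
        by_cases hil : i ≤ l
        · exact c2 heq hil
        · exact c3 heq (by omega) le_rfl hk1
      · exact c1 (fun hh => h (by have := (hp i).1 hh; omega))
  · -- `k < l`
    have hne : b / 2 ^ l ≠ d / 2 ^ l := by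
      have h1 := he.inn hlk
      have h2 := hf.low
      have h3 : a / 2 ^ l ≤ c / 2 ^ l := Nat.div_le_div_right hac.le
      omega
    have hlq : ¬ q < l := fun hh => hne ((hq l).2 hh)
    refine ⟨2 * K + 3 - k, 2 * K + 3 - p, ?_, ?_⟩
    · intro i hi
      obtain ⟨c1, c2, c3, c4, c5, c6, c7, c8⟩ := cmpD (i := i) he hf hb hd hac
      refine ⟨fun h => by omega, fun _ => ?_⟩
      by_cases heq : b / 2 ^ i = d / 2 ^ i
      · have := (hq i).1 heq
        exact c4 heq (by omega) (by omega) (fun hh => by omega)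
      · have h1 : b / 2 ^ i ≤ d / 2 ^ i := Nat.div_le_div_right hbd.le
        exact c1 (by omega)
    · intro i hi
      obtain ⟨c1, c2, c3, c4⟩ := cmpE (i := i) he hf hb hd hac
      refine ⟨fun h => ?_, fun h => ?_⟩
      · exact c2 ((hp i).2 (by omega)) (by omega)
      · by_cases heq : a / 2 ^ i = c / 2 ^ i
        · have := (hp i).1 heq
          exact c4 heq (by omega) (fun hh => by omega)
        · exact c1 heq

end

end Pool.Agent.CLow3
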